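import Pool.Agent.helper85.TQ.Rows

set_option autoImplicit false

/-!
# Two-queue graphs are 7-colourable
-/

namespace Pool.Agent.helper85.TQ

/-- the last right end, over the vertices `≤ v`, of an edge of length at least three (vertex `x`
has number `x + 1`) -/
def rr {n : ℕ} (A : Fin n → Fin n → Prop) [DecidableRel A] (v : ℕ) : ℕ :=
  ((Finset.univ : Finset (Fin n × Fin n)).filter
    (fun p => p.1.val + 1 ≤ v ∧ p.1.val + 3 ≤ p.2.val ∧ A p.1 p.2)).sup (fun p => p.2.val + 1) ⊔
    (v + 2)

theorem rr_mono {n : ℕ} (A : Fin n → Fin n → Prop) [DecidableRel A] : Monotone (rr A) := by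
  intro v w h
  refine sup_le_sup (Finset.sup_mono ?_) (by omega)
  intro p hp
  simp only [Finset.mem_filter, Finset.mem_univ, true_and] at hp ⊢
  exact ⟨hp.1.trans h, hp.2⟩

theorem le_rr {n : ℕ} (A : Fin n → Fin n → Prop) [DecidableRel A] (v : ℕ) : v + 2 ≤ rr A v :=
  le_sup_right

/-- graphs in which consecutive vertices are adjacent -/
theorem base {n : ℕ} (G : SimpleGraph (Fin n)) (q : Fin n → Fin n → Fin 2)
    (hq : ∀ a b c d : Fin n, a < b → b < c → c < d → G.Adj a d → G.Adj b c → q a d ≠ q b c)
    (hc : ∀ u v : Fin n, u.val + 1 = v.val → G.Adj u v) : G.Colorable 7 := by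
  classical
  have hL : ∀ a b c d : Fin n, a < b → b.val + 3 ≤ c.val → c < d → G.Adj a d → ¬ G.Adj b c := by
    intro a b c d hab hbc hcd had hbc'
    have hc' : c.val < n := c.isLt
    have h1 := hc ⟨b.val + 1, by omega⟩ ⟨b.val + 2, by omega⟩ rfl
    have h2 := hq a b c d hab (by rw [Fin.lt_def]; omega) hcd had hbc'
    have h3 := hq a ⟨b.val + 1, by omega⟩ ⟨b.val + 2, by omega⟩ d
      (by rw [Fin.lt_def] at hab ⊢; simp only; omega) (by rw [Fin.lt_def]; simp)
      (by rw [Fin.lt_def] at hcd ⊢; simp only; omega) had h1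
    have h4 := hq b ⟨b.val + 1, by omega⟩ ⟨b.val + 2, by omega⟩ c
      (by rw [Fin.lt_def]; simp) (by rw [Fin.lt_def]; simp)
      (by rw [Fin.lt_def]; simp only; omega) hbc' h1
    generalize q a d = x at *
    generalize q b c = y at *
    generalize q _ _ = z at *
    omega
  set r := rr (fun x y => G.Adj x y) with hr
  obtain ⟨c, hc1, -⟩ := rows (rr_mono (fun x y => G.Adj x y)) (le_rr (fun x y => G.Adj x y)) n
    (n + 1) 1 le_rfl (by omega)
  have key : ∀ x y : Fin n, x < y → G.Adj x y → c (x.val + 1) ≠ c (y.val + 1) := by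
    intro x y hxy h
    refine hc1 _ _ (by omega) (by have := y.isLt; omega) ⟨by rw [Fin.lt_def] at hxy; omega, ?_⟩
    by_cases h3 : y.val ≤ x.val + 2
    · left
      omega
    · right
      constructor
      · refine sup_le (Finset.sup_le ?_) (by omega)
        intro p hp
        simp only [Finset.mem_filter, Finset.mem_univ, true_and] at hp
        by_contra h4
        exact hL p.1 x y p.2 (by rw [Fin.lt_def]; omega) (by omega) (by rw [Fin.lt_def]; omega)
          hp.2.2 h
      · refine le_sup_of_le_left ?_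
        refine Finset.le_sup (f := fun p : Fin n × Fin n => p.2.val + 1) (b := (x, y)) ?_
        simp only [Finset.mem_filter, Finset.mem_univ, true_and]
        exact ⟨le_rfl, by omega, h⟩
  have hcol : G.Coloring (Fin 3 ⊕ Fin 4) := SimpleGraph.Coloring.mk (fun x => c (x.val + 1)) (by
    intro x y h
    rcases lt_trichotomy x y with hxy | hxy | hxy
    · exact key x y hxy h
    · exact absurd (hxy ▸ h) (G.irrefl)
    · exact (key y x hxy h.symm).symm)
  simpa using hcol.colorable

theorem colorable_seven : ∀ (n : ℕ) (G : SimpleGraph (Fin n)) (q : Fin n → Fin n → Fin 2),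
    (∀ a b c d : Fin n, a < b → b < c → c < d → G.Adj a d → G.Adj b c → q a d ≠ q b c) →
      G.Colorable 7 := by
  intro n
  induction n with
  | zero =>
    intro G q hq
    exact base G q hq fun u => u.elim0
  | succ m ih =>
    intro G q hq
    by_cases hall : ∀ u v : Fin (m + 1), u.val + 1 = v.val → G.Adj u v
    · exact base G q hq hall
    · push Not at hall
      obtain ⟨u, v, huv, hnot⟩ := hall
      have hu : u.val < m := by have := v.isLt; omega
      -- the contraction of `u` and `v`
      let f : Fin (m + 1) → Fin m := fun x => if h : x.val ≤ u.val then ⟨x.val, by omega⟩ else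
        ⟨x.val - 1, by have := x.isLt; omega⟩
      have hf : ∀ x, (f x).val = if x.val ≤ u.val then x.val else x.val - 1 := by
        intro x
        simp only [f]
        split_ifs <;> rfl
      have hflt : ∀ x y, f x < f y → x < y := by
        intro x y h
        rw [Fin.lt_def, hf, hf] at h
        rw [Fin.lt_def]
        split_ifs at h <;> omega
      have hfeq : ∀ x y, f x = f y → x < y → x = u ∧ y = v := by
        intro x y h hxy
        rw [Fin.ext_iff, hf, hf] at h
        rw [Fin.lt_def] at hxy
        rw [Fin.ext_iff, Fin.ext_iff]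
        split_ifs at h <;> omega
      have hfadj : ∀ x y, G.Adj x y → f x ≠ f y := by
        intro x y hxy h
        rcases lt_trichotomy x y with h1 | h1 | h1
        · obtain ⟨rfl, rfl⟩ := hfeq x y h h1
          exact hnot hxy
        · exact G.irrefl (h1 ▸ hxy)
        · obtain ⟨rfl, rfl⟩ := hfeq y x h.symm h1
          exact hnot hxy.symm
      classical
      let G' : SimpleGraph (Fin m) :=
        { Adj := fun x y => ∃ a b, f a = x ∧ f b = y ∧ G.Adj a b
          symm := ⟨fun x y ⟨a, b, h1, h2, h3⟩ => ⟨b, a, h2, h1, h3.symm⟩⟩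
          loopless := ⟨fun x ⟨a, b, h1, h2, h3⟩ => hfadj a b h3 (h1.trans h2.symm)⟩ }
      let q' : Fin m → Fin m → Fin 2 := fun x y =>
        if h : ∃ a b, f a = x ∧ f b = y ∧ G.Adj a b then q h.choose h.choose_spec.choose else 0
      have hq' : ∀ a b c d : Fin m, a < b → b < c → c < d → G'.Adj a d → G'.Adj b c →
          q' a d ≠ q' b c := by
        intro a b c d hab hbc hcd had hbc'
        have h1 : ∃ x y, f x = a ∧ f y = d ∧ G.Adj x y := had
        have h2 : ∃ x y, f x = b ∧ f y = c ∧ G.Adj x y := hbc'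
        simp only [q', dif_pos h1, dif_pos h2]
        obtain ⟨h3, h4, h5⟩ := h1.choose_spec.choose_spec
        obtain ⟨h6, h7, h8⟩ := h2.choose_spec.choose_spec
        exact hq _ _ _ _ (hflt _ _ ((h3.le.trans_lt hab).trans_le h6.ge))
          (hflt _ _ ((h6.le.trans_lt hbc).trans_le h7.ge))
          (hflt _ _ ((h7.le.trans_lt hcd).trans_le h4.ge)) h5 h8
      obtain ⟨C⟩ := ih G' q' hq'
      exact ⟨SimpleGraph.Coloring.mk (fun x => C (f x)) (by
        intro x y h
        exact C.valid (show G'.Adj (f x) (f y) from ⟨x, y, rfl, rfl, h⟩))⟩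

end Pool.Agent.helper85.TQ
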