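import Mathlib

set_option autoImplicit false

/-!
# Two-queue graphs: colouring the extended graph by rows
-/

namespace Pool.Agent.helper85.TQ

/-- edges of the extended graph: `u < w`, at distance at most two, or between the consecutive
values of `r` -/
def Ed (r : ℕ → ℕ) (u w : ℕ) : Prop :=
  u < w ∧ (w ≤ u + 2 ∨ (r (u - 1) ≤ w ∧ w ≤ r u))

/-- good colourings of the part to the right of `a` -/
def Good (r : ℕ → ℕ) (N a : ℕ) (c : ℕ → Fin 3 ⊕ Fin 4) : Prop :=
  (∀ u w, a ≤ u → w ≤ N → Ed r u w → c u ≠ c w) ∧
    ∀ t, a ≤ t → t ≤ r (a - 1) → ∃ q, c t = Sum.inr q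

theorem Ed.le_r {r : ℕ → ℕ} (h2 : ∀ v, v + 2 ≤ r v) {u w : ℕ} (h : Ed r u w) : w ≤ r u := by
  rcases h.2 with h | h
  · exact h.trans (h2 u)
  · exact h.2

theorem glue {r : ℕ → ℕ} (hm : Monotone r) (h2 : ∀ v, v + 2 ≤ r v) {N a e : ℕ} (ha : 1 ≤ a)
    (hb : r (a - 1) ≤ e) (f : ℕ → Fin 4) (s : Fin 4)
    (hf : ∀ u w, a ≤ u → w ≤ e → Ed r u w → f u ≠ f w)
    (hs : ∀ u, a ≤ u → u ≤ e → r u = r e → f u ≠ s)
    (ih : ∃ c, Good r N (r e) c) : ∃ c, Good r N a c := by
  obtain ⟨c, hc1, hc2⟩ := ih
  have he := h2 e
  obtain ⟨q, hq⟩ := hc2 (r e) le_rfl (by have := h2 (r e - 1); omega)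
  refine ⟨fun t => if t ≤ e then Sum.inr (f t) else if t < r e then
    Sum.inl ⟨t % 3, Nat.mod_lt _ (by norm_num)⟩ else Sum.map id (Equiv.swap q s) (c t), ?_, ?_⟩
  · intro u w hu hw h
    have huw := h.1
    have hle := h.le_r h2
    by_cases h1 : w ≤ e
    · have h3 : u ≤ e := by omega
      simp only [h1, h3, if_true]
      intro h4
      exact hf u w hu h1 h (Sum.inr_injective h4)
    · by_cases h3 : w < r e
      · by_cases h4 : u ≤ e
        · simp [h1, h3, h4]
        · have h5 : u < r e := by omega
          simp only [h1, h3, h4, h5, if_true, if_false]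
          intro h6
          have h7 := Fin.mk.inj_iff.1 (Sum.inl_injective h6)
          rcases h.2 with h8 | h8
          · omega
          · have : r e ≤ r (u - 1) := hm (by omega)
            omega
      · by_cases h4 : u ≤ e
        · have h5 : r u ≤ r e := hm h4
          have h6 : w = r e := by omega
          have h7 : r u = r e := by omega
          subst h6
          simp only [h1, h4, if_true, if_false, lt_irrefl, hq, Sum.map_inr, Equiv.swap_apply_left]
          intro h8
          exact hs u hu h4 h7 (Sum.inr_injective h8)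
        · by_cases h5 : u < r e
          · have h6 : r u ≤ r (r e - 1) := hm (by omega)
            obtain ⟨q', hq'⟩ := hc2 w (by omega) (by omega)
            simp [h1, h3, h4, h5, hq']
          · simp only [h1, h3, h4, h5, if_false]
            intro h6
            refine hc1 u w (by omega) hw h ?_
            refine Function.Injective.sumMap Function.injective_id (Equiv.injective _) h6
  · intro t _ ht
    exact ⟨f t, by simp [ht.trans hb]⟩

/-- the colours of a row -/
def rowCol (b β t : ℕ) : Fin 4 :=
  if t % 3 = b % 3 then (if β < t then 3 else 2) else if t % 3 = (b + 1) % 3 then 0 else 1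

theorem rowCol_near {b β u w : ℕ} (h : u < w) (h' : w ≤ u + 2) : rowCol b β u ≠ rowCol b β w := by
  unfold rowCol
  split_ifs <;> omega

theorem rowCol_lt {b β t : ℕ} (h : t ≤ β) : rowCol b β t ≠ 3 := by
  unfold rowCol
  split_ifs <;> omega

theorem rowCol_gt {b β t : ℕ} (h : β < t) : rowCol b β t ≠ 2 := by
  unfold rowCol
  split_ifs <;> omega

theorem rowCol_two {b β t : ℕ} (h : rowCol b β t = 2) : t % 3 = b % 3 := by
  unfold rowCol at h
  split_ifs at h with h1 h2 h3
  · exact h1
  · exact h1
  · exact absurd h (by decide)
  · exact absurd h (by decide)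

theorem rows {r : ℕ → ℕ} (hm : Monotone r) (h2 : ∀ v, v + 2 ≤ r v) (N : ℕ) :
    ∀ k a, 1 ≤ a → N < a + k → ∃ c, Good r N a c := by
  intro k
  induction k with
  | zero =>
    intro a _ hN
    refine ⟨fun _ => Sum.inr 0, fun u w hu hw h => ?_, fun _ _ _ => ⟨0, rfl⟩⟩
    have := h.1
    omega
  | succ k ih =>
    intro a ha hN
    have hab := h2 (a - 1)
    set b := r (a - 1) with hb
    have hβa : a ≤ Nat.findGreatest (fun v => r (v - 1) = b) b :=
      Nat.le_findGreatest (by omega) rfl
    have hβ1 : r (Nat.findGreatest (fun v => r (v - 1) = b) b - 1) = b :=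
      Nat.findGreatest_spec (P := fun v => r (v - 1) = b) (m := a) (by omega) rfl
    have hβ2 : ∀ v, v ≤ b → r (v - 1) = b → v ≤ Nat.findGreatest (fun v => r (v - 1) = b) b :=
      fun v hv hv' => Nat.le_findGreatest hv hv'
    generalize Nat.findGreatest (fun v => r (v - 1) = b) b = β at hβa hβ1 hβ2
    have hβb : β < b := by
      have := h2 (β - 1)
      omega
    have hb3 : rowCol b β b = 3 := by simp [rowCol, hβb]
    have hrb := h2 b
    by_cases hcase : r β = r b ∧ β % 3 = b % 3
    · obtain ⟨hc1, hc2⟩ := hcase
      have hy0 : b + 1 ≤ Nat.findGreatest (fun v => r (v - 1) = r b) (r b) :=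
        Nat.le_findGreatest (by omega) (by simp)
      have hy1 : r (Nat.findGreatest (fun v => r (v - 1) = r b) (r b) - 1) = r b :=
        Nat.findGreatest_spec (P := fun v => r (v - 1) = r b) (m := b + 1) (by omega) (by simp)
      have hy2 : ∀ v, v ≤ r b → r (v - 1) = r b →
          v ≤ Nat.findGreatest (fun v => r (v - 1) = r b) (r b) :=
        fun v hv hv' => Nat.le_findGreatest hv hv'
      generalize Nat.findGreatest (fun v => r (v - 1) = r b) (r b) = y at hy0 hy1 hy2
      have hy3 : y + 1 ≤ r b := by
        have := h2 (y - 1)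
        omega
      have hy4 : r b < r y := by
        rcases lt_or_eq_of_le (hm (show b ≤ y by omega)) with h | h
        · exact h
        · have := hy2 (y + 1) hy3 (by simpa using h.symm)
          omega
      refine glue hm h2 ha (e := y) (by omega) (rowCol b β) (rowCol b β y + 1) ?_ ?_
        (ih (r y) (by omega) (by omega))
      · intro u w hu hw h
        rcases h.2 with h3 | ⟨h3, h4⟩
        · exact rowCol_near h.1 h3
        · have h5 : b ≤ r (u - 1) := hm (by omega)
          rcases lt_trichotomy u β with h6 | h6 | h6
          · have h7 : r u ≤ r (β - 1) := hm (by omega)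
            have h8 : w = b := by omega
            rw [h8, hb3]
            exact rowCol_lt h6.le
          · have h7 : rowCol b β u = 2 := by simp [rowCol, h6, hc2]
            rw [h7]
            exact (rowCol_gt (by omega)).symm
          · have h7 : r β ≤ r (u - 1) := hm (by omega)
            omega
      · intro u hu hu' h
        have h3 : u = y := by
          by_contra h3
          have : r u ≤ r (y - 1) := hm (by omega)
          omega
        subst h3
        generalize rowCol b β u = x
        revert x
        decide
    · refine glue hm h2 ha (e := b) le_rfl (rowCol b β) 2 ?_ ?_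
        (ih (r b) (by omega) (by omega))
      · intro u w hu hw h
        rcases h.2 with h3 | ⟨h3, h4⟩
        · exact rowCol_near h.1 h3
        · have h5 : b ≤ r (u - 1) := hm (by omega)
          have h8 : w = b := by omega
          have h10 := h.1
          have h9 := hβ2 u (by omega) (by omega)
          rw [h8, hb3]
          exact rowCol_lt h9
      · intro u hu hu' h h3
        have h4 := rowCol_two h3
        have h5 : u ≤ β := by
          by_contra h5
          exact rowCol_gt (by omega) h3
        rcases lt_or_eq_of_le h5 with h6 | h6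
        · have h7 : r u ≤ r (β - 1) := hm (by omega)
          omega
        · exact hcase ⟨h6 ▸ h, h6 ▸ h4⟩

end Pool.Agent.helper85.TQ
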